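import Pool.Agent.H801.Em.Graph

set_option autoImplicit false

/-!
# From vertices to labels
-/

namespace Pool.Agent.H801.Em

open Pool.Agent.NPC
open Pool.Agent.H801.Fvs (ent)
open Pool.Agent.H801.Tri (E cube mem_cube cube_nodup)

theorem bridge {α : Type} [DecidableEq α] {N : ℕ} {S : Finset α} {lab : Fin N → α}
    (hinj : Function.Injective lab) (hmem : ∀ i, lab i ∈ S) (hsurj : ∀ x ∈ S, ∃ i, lab i = x)
    (p q : α → α → Prop) [DecidableRel q] (pi qi : Fin N → Fin N → Prop) [DecidableRel qi]
    (hp : ∀ i j, pi i j ↔ p (lab i) (lab j)) (hq : ∀ i j, qi i j ↔ q (lab i) (lab j)) (k : ℕ) :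
    (∃ f : Fin N → Fin N, (∀ v : Fin N, f (f v) = v) ∧ (∀ v : Fin N, pi v (f v)) ∧
      (Finset.univ.filter (fun v : Fin N => qi v (f v))).card = k) ↔
    (∃ g : α → α, (∀ x ∈ S, g x ∈ S ∧ g (g x) = x ∧ p x (g x)) ∧
      (S.filter (fun x => q x (g x))).card = k) := by
  classical
  have hcard : ∀ (f : Fin N → Fin N) (g : α → α), (∀ i, g (lab i) = lab (f i)) →
      (S.filter (fun x => q x (g x))).card =
        (Finset.univ.filter (fun v : Fin N => qi v (f v))).card := by
    intro f g h
    have e : S.filter (fun x => q x (g x)) =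
        (Finset.univ.filter (fun v : Fin N => qi v (f v))).image lab := by
      ext x
      simp only [Finset.mem_filter, Finset.mem_image, Finset.mem_univ, true_and]
      constructor
      · rintro ⟨hx, hxq⟩
        obtain ⟨i, rfl⟩ := hsurj x hx
        exact ⟨i, (hq _ _).2 (by rw [← h]; exact hxq), rfl⟩
      · rintro ⟨i, hi, rfl⟩
        exact ⟨hmem i, by rw [h]; exact (hq _ _).1 hi⟩
    rw [e, Finset.card_image_of_injective _ hinj]
  constructor
  · rintro ⟨f, hf, hpf, hc⟩
    obtain ⟨g, hg⟩ : ∃ g : α → α, ∀ i, g (lab i) = lab (f i) := by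
      refine ⟨fun x => if h : ∃ i, lab i = x then lab (f h.choose) else x, fun i => ?_⟩
      have h : ∃ j, lab j = lab i := ⟨i, rfl⟩
      have h' : h.choose = i := hinj h.choose_spec
      simp only [h, dif_pos]
      rw [h']
    refine ⟨g, ?_, ?_⟩
    · intro x hx
      obtain ⟨i, rfl⟩ := hsurj x hx
      rw [hg, hg, hf]
      exact ⟨hmem _, rfl, (hp _ _).1 (hpf i)⟩
    · rw [hcard f g hg]
      exact hc
  · rintro ⟨g, hg, hc⟩
    have : ∀ i : Fin N, ∃ j : Fin N, lab j = g (lab i) := fun i => hsurj _ (hg _ (hmem i)).1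
    choose f hf using this
    refine ⟨f, fun v => hinj ?_, fun v => ?_, ?_⟩
    · rw [hf, hf, (hg _ (hmem v)).2.1]
    · rw [hp, hf]
      exact (hg _ (hmem v)).2.2
    · rw [← hcard f g (fun i => (hf i).symm)]
      exact hc

/-- The constructed instance. -/
def inst (I : Inst) : Inst :=
  ((labs I.1.length).map (fun x => (labs I.1.length).map
      (fun y => decide (adj I.1.length I.1 x y))),
    (labs I.1.length).map (fun x => (labs I.1.length).map (fun y => decide (red I.2.1 x y))),
    I.2.2)

section

variable {I : Inst}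

theorem inst_len : (inst I).1.length = (labs I.1.length).length := by simp [inst]

/-- The label of a vertex. -/
def lab (i : Fin (inst I).1.length) : E := (labs I.1.length)[i.1]'(lt_of_lt_of_eq i.2 inst_len)

theorem lab_mem (i : Fin (inst I).1.length) : lab i ∈ (labs I.1.length).toFinset :=
  List.mem_toFinset.2 (List.getElem_mem _)

theorem lab_inj : Function.Injective (lab (I := I)) := by
  intro i j h
  unfold lab at h
  exact Fin.ext ((List.Nodup.getElem_inj_iff (labs_nodup _)).1 h)

theorem exists_lab {x : E} (hx : x ∈ (labs I.1.length).toFinset) :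
    ∃ i : Fin (inst I).1.length, lab i = x := by
  obtain ⟨i, hi, rfl⟩ := List.getElem_of_mem (List.mem_toFinset.1 hx)
  exact ⟨⟨i, by rwa [inst_len]⟩, rfl⟩

theorem ent_inst {a b : ℕ} (ha : a < (labs I.1.length).length) (hb : b < (labs I.1.length).length) :
    ent (inst I).1 a b = decide (adj I.1.length I.1 (labs I.1.length)[a] (labs I.1.length)[b]) := by
  simp [ent, inst, List.getD_eq_getElem?_getD, ha, hb]

theorem ent_inst_none {a b : ℕ}
    (h : ¬ (a < (labs I.1.length).length ∧ b < (labs I.1.length).length)) :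
    ent (inst I).1 a b = false := by
  unfold ent inst
  by_cases ha : a < (labs I.1.length).length
  · have hb : (labs I.1.length).length ≤ b := by
      by_contra hb
      exact h ⟨ha, by omega⟩
    simp [List.getD_eq_getElem?_getD, ha, hb]
  · simp [List.getD_eq_getElem?_getD, not_lt.1 ha]

theorem ent_red {a b : ℕ} (ha : a < (labs I.1.length).length) (hb : b < (labs I.1.length).length) :
    ent (inst I).2.1 a b = decide (red I.2.1 (labs I.1.length)[a] (labs I.1.length)[b]) := by
  simp [ent, inst, List.getD_eq_getElem?_getD, ha, hb]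

theorem ent_red_none {a b : ℕ}
    (h : ¬ (a < (labs I.1.length).length ∧ b < (labs I.1.length).length)) :
    ent (inst I).2.1 a b = false := by
  unfold ent inst
  by_cases ha : a < (labs I.1.length).length
  · have hb : (labs I.1.length).length ≤ b := by
      by_contra hb
      exact h ⟨ha, by omega⟩
    simp [List.getD_eq_getElem?_getD, ha, hb]
  · simp [List.getD_eq_getElem?_getD, not_lt.1 ha]

theorem red_symm (hs : ∀ a b, ent I.2.1 a b = ent I.2.1 b a) {x y : E} (h : red I.2.1 x y) :
    red I.2.1 y x := by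
  obtain ⟨a, b, c, d⟩ := x
  unfold red at h ⊢
  obtain ⟨h1, h2, rfl, h4⟩ := h
  simp only at h1 h2 h4 ⊢
  subst h1
  subst h2
  exact ⟨trivial, trivial, rfl, by rw [hs]; exact h4⟩

theorem red_adj (hr : ∀ a b, ent I.2.1 a b = true → ent I.1 a b = true) {x y : E}
    (h : red I.2.1 x y) : adj I.1.length I.1 x y := by
  obtain ⟨a, b, c, d⟩ := x
  unfold red at h
  obtain ⟨h1, h2, rfl, h4⟩ := h
  simp only at h1 h2 h4
  subst h1
  subst h2
  refine Or.inr (Or.inr ?_)
  simp [nb2, hr _ _ h4]

theorem ent_lt {M : List (List Bool)} (h : ∀ r ∈ M, r.length = M.length) {a b : ℕ}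
    (hab : ent M a b = true) : a < M.length ∧ b < M.length := by
  unfold ent at hab
  by_cases ha : a < M.length
  · refine ⟨ha, ?_⟩
    by_contra hb
    rw [List.getD_eq_getElem _ _ ha] at hab
    have h1 : (M[a]).length = M.length := h _ (List.getElem_mem ha)
    rw [List.getD_eq_default] at hab
    · simp at hab
    · omega
  · rw [List.getD_eq_default M [] (by omega)] at hab
    simp at hab

theorem wf_inst (h : WF I) : WF (inst I) := by
  obtain ⟨h1, h2, h3, h4, h5, h6, h7⟩ := h
  refine ⟨?_, ?_, ?_, ?_, ?_, ?_, ?_⟩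
  · intro r hr
    simp only [inst, List.mem_map] at hr
    obtain ⟨x, _, rfl⟩ := hr
    simp [inst]
  · intro a b
    by_cases h : a < (labs I.1.length).length ∧ b < (labs I.1.length).length
    · rw [ent_inst h.1 h.2, ent_inst h.2 h.1]
      exact decide_eq_decide.2 ⟨adj_symm h2 (mem_labs.1 (List.getElem_mem _)),
        adj_symm h2 (mem_labs.1 (List.getElem_mem _))⟩
    · rw [ent_inst_none h, ent_inst_none (fun h' => h ⟨h'.2, h'.1⟩)]
  · intro a
    by_cases h : a < (labs I.1.length).length ∧ a < (labs I.1.length).length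
    · rw [ent_inst h.1 h.2]
      obtain ⟨e1, e2, e3, _⟩ := nb_ne (n := I.1.length) (A := I.1) h3
        (mem_labs.1 (List.getElem_mem h.1))
      exact decide_eq_false (fun h' => h'.elim e1 (fun h' => h'.elim e2 e3))
    · exact ent_inst_none h
  · simp [inst]
  · intro r hr
    simp only [inst, List.mem_map] at hr
    obtain ⟨x, _, rfl⟩ := hr
    simp [inst]
  · intro a b
    by_cases h : a < (labs I.1.length).length ∧ b < (labs I.1.length).length
    · rw [ent_red h.1 h.2, ent_red h.2 h.1]
      exact decide_eq_decide.2 ⟨red_symm h6, red_symm h6⟩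
    · rw [ent_red_none h, ent_red_none (fun h' => h ⟨h'.2, h'.1⟩)]
  · intro a b hab
    by_cases h : a < (labs I.1.length).length ∧ b < (labs I.1.length).length
    · rw [ent_red h.1 h.2, decide_eq_true_iff] at hab
      rw [ent_inst h.1 h.2, decide_eq_true_iff]
      exact red_adj h7 hab
    · rw [ent_red_none h] at hab
      simp at hab

theorem red_disjoint : RedDisjoint (inst I) := by
  intro v a b ha hb
  by_cases h : v < (labs I.1.length).length ∧ a < (labs I.1.length).length
  · by_cases h' : v < (labs I.1.length).length ∧ b < (labs I.1.length).length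
    · rw [ent_red h.1 h.2, decide_eq_true_iff] at ha
      rw [ent_red h'.1 h'.2, decide_eq_true_iff] at hb
      have e := ha.2.2.1.trans hb.2.2.1.symm
      exact (List.Nodup.getElem_inj_iff (labs_nodup _)).1 e
    · rw [ent_red_none h'] at hb
      simp at hb
  · rw [ent_red_none h] at ha
    simp at ha

theorem cubic (h : WF I) : Cubic (inst I) := by
  classical
  intro v
  have hx : V I.1.length (lab v) := mem_labs.1 (List.mem_toFinset.1 (lab_mem v))
  obtain ⟨v0, v1, v2⟩ := nb_valid (A := I.1) hx
  have v2 := v2 (fun a b hab => ent_lt h.1 hab)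
  obtain ⟨_, _, _, e1, e2, e3⟩ := nb_ne (n := I.1.length) (A := I.1) h.2.2.1 hx
  have e : (Finset.univ.filter (fun w : Fin (inst I).1.length =>
      ent (inst I).1 v.1 w.1 = true)).image lab =
      {nb0 (lab v), nb1 I.1.length (lab v), nb2 I.1.length I.1 (lab v)} := by
    ext y
    simp only [Finset.mem_filter, Finset.mem_image, Finset.mem_univ, true_and,
      Finset.mem_insert, Finset.mem_singleton]
    have hk : ∀ w : Fin (inst I).1.length, ent (inst I).1 v.1 w.1 =
        decide (adj I.1.length I.1 (lab v) (lab w)) := fun w =>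
      ent_inst (lt_of_lt_of_eq v.2 inst_len) (lt_of_lt_of_eq w.2 inst_len)
    constructor
    · rintro ⟨w, hw, rfl⟩
      rw [hk, decide_eq_true_iff] at hw
      exact hw
    · intro hy
      have hyl : y ∈ (labs I.1.length).toFinset := by
        rw [List.mem_toFinset, mem_labs]
        rcases hy with rfl | rfl | rfl
        · exact v0
        · exact v1
        · exact v2
      obtain ⟨w, rfl⟩ := exists_lab hyl
      exact ⟨w, by rw [hk, decide_eq_true_iff]; exact hy, rfl⟩
  rw [← Finset.card_image_of_injective _ lab_inj, e]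
  exact Finset.card_eq_three.2 ⟨_, _, _, e1, e2, e3, rfl⟩

theorem yes_inst : Yes (inst I) ↔ ∃ g : E → E,
    (∀ x ∈ (labs I.1.length).toFinset, g x ∈ (labs I.1.length).toFinset ∧ g (g x) = x ∧
      adj I.1.length I.1 x (g x)) ∧
    ((labs I.1.length).toFinset.filter (fun x => red I.2.1 x (g x))).card = 2 * I.2.2 := by
  refine bridge (S := (labs I.1.length).toFinset) lab_inj lab_mem (fun x hx => exists_lab hx)
    (fun x y => adj I.1.length I.1 x y) (fun x y => red I.2.1 x y)
    (fun i j : Fin (inst I).1.length => ent (inst I).1 i.1 j.1 = true)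
    (fun i j : Fin (inst I).1.length => ent (inst I).2.1 i.1 j.1 = true) ?_ ?_ (2 * I.2.2)
  · intro i j
    rw [ent_inst (lt_of_lt_of_eq i.2 inst_len) (lt_of_lt_of_eq j.2 inst_len), decide_eq_true_iff]
    rfl
  · intro i j
    rw [ent_red (lt_of_lt_of_eq i.2 inst_len) (lt_of_lt_of_eq j.2 inst_len), decide_eq_true_iff]
    rfl

theorem yes_orig : Yes I ↔ ∃ f : ℕ → ℕ,
    (∀ v ∈ Finset.range I.1.length, f v ∈ Finset.range I.1.length ∧ f (f v) = v ∧
      ent I.1 v (f v) = true) ∧
    ((Finset.range I.1.length).filter (fun v => ent I.2.1 v (f v) = true)).card = 2 * I.2.2 := by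
  refine bridge (S := Finset.range I.1.length) (lab := fun i : Fin I.1.length => i.1)
    (fun i j h => Fin.ext h) (fun i => Finset.mem_range.2 i.2)
    (fun x hx => ⟨⟨x, Finset.mem_range.1 hx⟩, rfl⟩)
    (fun x y => ent I.1 x y = true) (fun x y => ent I.2.1 x y = true)
    (fun i j : Fin I.1.length => ent I.1 i.1 j.1 = true)
    (fun i j : Fin I.1.length => ent I.2.1 i.1 j.1 = true) ?_ ?_ (2 * I.2.2)
  · intro i j
    exact Iff.rfl
  · intro i j
    exact Iff.rfl

end

end Pool.Agent.H801.Em
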