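import Pool.Agent.H801.Fvs.Defs

set_option autoImplicit false

/-!
# Exact (red-blue) matching: definitions
-/

namespace Pool.Agent.H801.Em

open Pool.Agent.NPC
open Pool.Agent.H801.Fvs (ent)

/-- An instance: the adjacency matrix of a graph, the matrix of its red edges, and the number `k`. -/
abbrev Inst : Type := List (List Bool) × List (List Bool) × ℕ

/-- The first matrix is the adjacency matrix of a finite simple graph (square, symmetric, zero
diagonal), the second one is a symmetric matrix of the same size which marks some of the edges as
red. -/
def WF (I : Inst) : Prop :=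
  (∀ r ∈ I.1, r.length = I.1.length) ∧ (∀ a b, ent I.1 a b = ent I.1 b a) ∧
    (∀ a, ent I.1 a a = false) ∧ I.2.1.length = I.1.length ∧
    (∀ r ∈ I.2.1, r.length = I.1.length) ∧ (∀ a b, ent I.2.1 a b = ent I.2.1 b a) ∧
    (∀ a b, ent I.2.1 a b = true → ent I.1 a b = true)

/-- The graph has a perfect matching with exactly `k` red edges. A perfect matching is given by the
function `f` which maps each vertex to the other end of its matching edge; each red matching edge has
two ends. -/
def Yes (I : Inst) : Prop :=
  ∃ f : Fin I.1.length → Fin I.1.length, (∀ v : Fin I.1.length, f (f v) = v) ∧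
    (∀ v : Fin I.1.length, ent I.1 v.1 (f v).1 = true) ∧
    (Finset.univ.filter (fun v : Fin I.1.length => ent I.2.1 v.1 (f v).1 = true)).card = 2 * I.2.2

/-- The graph is 3-regular. -/
def Cubic (I : Inst) : Prop :=
  ∀ v : Fin I.1.length,
    (Finset.univ.filter (fun w : Fin I.1.length => ent I.1 v.1 w.1 = true)).card = 3

/-- No two red edges have a common end. -/
def RedDisjoint (I : Inst) : Prop :=
  ∀ v a b : ℕ, ent I.2.1 v a = true → ent I.2.1 v b = true → a = b

/-- There is a deterministic polynomial-time algorithm which decides, for all instances in the class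
`C`, whether there is a perfect matching with exactly `k` red edges. -/
def HasAlg (C : Inst → Prop) : Prop :=
  ∃ D : List Bool → List Bool, PolyTime D ∧ ∀ I : Inst, WF I → C I → (D (bits I) = [true] ↔ Yes I)

end Pool.Agent.H801.Em
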