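import Pool.Agent.H801.Tri.Time
import Pool.Agent.H801.Em.Defs

set_option autoImplicit false

/-!
# The cubic graph, on labels
-/

namespace Pool.Agent.H801.Em

open Pool.Agent.NPC
open Pool.Agent.H801.Fvs (ent)
open Pool.Agent.H801.Tri (E cube mem_cube cube_nodup)

/-- the contact vertex of a filling gadget for the copy `c` -/
def jc (c : ℕ) : ℕ := if c = 0 then 0 else 4

/-- the neighbours inside a filling gadget -/
def T0 : List ℕ := [1, 0, 0, 1, 3, 4, 5, 5, 6, 6]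
/-- the neighbours inside a filling gadget -/
def T1 : List ℕ := [2, 2, 1, 2, 5, 6, 8, 8, 7, 7]
/-- the neighbours inside a filling gadget -/
def T2 : List ℕ := [0, 3, 3, 4, 0, 7, 9, 9, 9, 8]

/-- the slot is free -/
def free (n : ℕ) (A : List (List Bool)) (κ v u : ℕ) : Bool :=
  if κ = 2 then decide (u = 0) else if κ = 3 then !(decide (u + 1 < n))
    else if κ = 4 then !(ent A v u) else true

/-- the vertex the slot belongs to -/
def host (κ c v u : ℕ) : E := if κ = 5 then (1, c, v, u) else (0, c, v, u)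

/-- the third neighbour of a contact vertex -/
def ext (n : ℕ) (A : List (List Bool)) (κ c v u : ℕ) : E :=
  if free n A κ v u = true then host κ c v u else (κ, (if c = 0 then 4 else 0), v, u)

/-- the first neighbour -/
def nb0 (x : E) : E :=
  if x.1 = 0 then (if x.2.2.2 = 0 then (2, jc x.2.1, x.2.2.1, x.2.2.2)
      else (1, x.2.1, x.2.2.1, x.2.2.2 - 1))
    else if x.1 = 1 then (0, x.2.1, x.2.2.1, x.2.2.2)
    else (x.1, T0.getD x.2.1 0, x.2.2.1, x.2.2.2)

/-- the second neighbour -/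
def nb1 (n : ℕ) (x : E) : E :=
  if x.1 = 0 then (if x.2.2.2 + 1 < n then (1, x.2.1, x.2.2.1, x.2.2.2)
      else (3, jc x.2.1, x.2.2.1, x.2.2.2))
    else if x.1 = 1 then (0, x.2.1, x.2.2.1, x.2.2.2 + 1)
    else (x.1, T1.getD x.2.1 0, x.2.2.1, x.2.2.2)

/-- the third neighbour -/
def nb2 (n : ℕ) (A : List (List Bool)) (x : E) : E :=
  if x.1 = 0 then (if ent A x.2.2.1 x.2.2.2 = true then (0, x.2.1, x.2.2.2, x.2.2.1)
      else (4, jc x.2.1, x.2.2.1, x.2.2.2))
    else if x.1 = 1 then (5, jc x.2.1, x.2.2.1, x.2.2.2)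
    else if x.2.1 = 0 then ext n A x.1 0 x.2.2.1 x.2.2.2
    else if x.2.1 = 4 then ext n A x.1 1 x.2.2.1 x.2.2.2
    else (x.1, T2.getD x.2.1 0, x.2.2.1, x.2.2.2)

/-- adjacency -/
def adj (n : ℕ) (A : List (List Bool)) (x y : E) : Prop :=
  y = nb0 x ∨ y = nb1 n x ∨ y = nb2 n A x

/-- red edges -/
def red (R : List (List Bool)) (x y : E) : Prop :=
  x.1 = 0 ∧ x.2.1 = 0 ∧ y = (0, 0, x.2.2.2, x.2.2.1) ∧ ent R x.2.2.1 x.2.2.2 = true

instance (n : ℕ) (A : List (List Bool)) (x y : E) : Decidable (adj n A x y) := by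
  unfold adj; infer_instance

instance (R : List (List Bool)) (x y : E) : Decidable (red R x y) := by
  unfold red; infer_instance

/-- the labels of the vertices -/
def V (n : ℕ) (x : E) : Prop :=
  (x.1 = 0 ∧ x.2.1 < 2 ∧ x.2.2.1 < n ∧ x.2.2.2 < n) ∨
  (x.1 = 1 ∧ x.2.1 < 2 ∧ x.2.2.1 < n ∧ x.2.2.2 + 1 < n) ∨
  ((x.1 = 2 ∨ x.1 = 3 ∨ x.1 = 4) ∧ x.2.1 < 10 ∧ x.2.2.1 < n ∧ x.2.2.2 < n) ∨
  (x.1 = 5 ∧ x.2.1 < 10 ∧ x.2.2.1 < n ∧ x.2.2.2 + 1 < n)

/-- the list of the labels -/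
def labs (n : ℕ) : List E :=
  cube 0 2 n n ++ (cube 1 2 n (n - 1) ++ (cube 2 10 n n ++ (cube 3 10 n n ++
    (cube 4 10 n n ++ cube 5 10 n (n - 1)))))

theorem mem_labs {n : ℕ} {x : E} : x ∈ labs n ↔ V n x := by
  unfold labs V
  simp only [List.mem_append, mem_cube]
  constructor
  · rintro (h | h | h | h | h | h)
    · exact Or.inl h
    · exact Or.inr (Or.inl ⟨h.1, h.2.1, h.2.2.1, by omega⟩)
    · exact Or.inr (Or.inr (Or.inl ⟨Or.inl h.1, h.2⟩))
    · exact Or.inr (Or.inr (Or.inl ⟨Or.inr (Or.inl h.1), h.2⟩))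
    · exact Or.inr (Or.inr (Or.inl ⟨Or.inr (Or.inr h.1), h.2⟩))
    · exact Or.inr (Or.inr (Or.inr ⟨h.1, h.2.1, h.2.2.1, by omega⟩))
  · rintro (h | h | ⟨h | h | h, h'⟩ | h)
    · exact Or.inl h
    · exact Or.inr (Or.inl ⟨h.1, h.2.1, h.2.2.1, by omega⟩)
    · exact Or.inr (Or.inr (Or.inl ⟨h, h'⟩))
    · exact Or.inr (Or.inr (Or.inr (Or.inl ⟨h, h'⟩)))
    · exact Or.inr (Or.inr (Or.inr (Or.inr (Or.inl ⟨h, h'⟩))))
    · exact Or.inr (Or.inr (Or.inr (Or.inr (Or.inr ⟨h.1, h.2.1, h.2.2.1, by omega⟩))))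

theorem labs_nodup (n : ℕ) : (labs n).Nodup := by
  unfold labs
  have key : ∀ {l l' : List E}, l.Nodup → l'.Nodup → (∀ x ∈ l, ∀ y ∈ l', x.1 < y.1) →
      (l ++ l').Nodup := by
    intro l l' h h' hd
    rw [List.nodup_append]
    exact ⟨h, h', fun x hx y hy e => by have := hd x hx y hy; rw [e] at this; omega⟩
  refine key (cube_nodup _ _ _ _) (key (cube_nodup _ _ _ _) (key (cube_nodup _ _ _ _)
    (key (cube_nodup _ _ _ _) (key (cube_nodup _ _ _ _) (cube_nodup _ _ _ _) ?_) ?_) ?_) ?_) ?_ <;>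
  · intro x hx y hy
    simp only [List.mem_append, mem_cube] at hx hy
    omega

section

variable {n : ℕ} {A : List (List Bool)}

theorem V_cases {x : E} (h : V n x) :
    (∃ c v u, x = (0, c, v, u) ∧ c < 2 ∧ v < n ∧ u < n) ∨
    (∃ c v u, x = (1, c, v, u) ∧ c < 2 ∧ v < n ∧ u + 1 < n) ∨
    (∃ κ j v u, x = (κ, j, v, u) ∧ (κ = 2 ∨ κ = 3 ∨ κ = 4) ∧ j < 10 ∧ v < n ∧ u < n) ∨
    (∃ j v u, x = (5, j, v, u) ∧ j < 10 ∧ v < n ∧ u + 1 < n) := by
  obtain ⟨a, b, c, d⟩ := x
  unfold V at h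
  simp only at h
  rcases h with h | h | h | h
  · exact Or.inl ⟨b, c, d, by rw [h.1], h.2⟩
  · exact Or.inr (Or.inl ⟨b, c, d, by rw [h.1], h.2⟩)
  · exact Or.inr (Or.inr (Or.inl ⟨a, b, c, d, rfl, h⟩))
  · exact Or.inr (Or.inr (Or.inr ⟨b, c, d, by rw [h.1], h.2⟩))

theorem nb_valid {x : E} (h : V n x) : V n (nb0 x) ∧ V n (nb1 n x) ∧
    ((∀ a b, ent A a b = true → a < n ∧ b < n) → V n (nb2 n A x)) := by
  rcases V_cases h with ⟨c, v, u, rfl, hc, hv, hu⟩ | ⟨c, v, u, rfl, hc, hv, hu⟩ |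
    ⟨κ, j, v, u, rfl, hκ, hj, hv, hu⟩ | ⟨j, v, u, rfl, hj, hv, hu⟩
  · refine ⟨?_, ?_, fun hA => ?_⟩
    · simp only [nb0, V, jc]; split_ifs <;> simp <;> omega
    · simp only [nb1, V, jc]; split_ifs <;> simp <;> omega
    · simp only [nb2, V, jc]; split_ifs <;> simp <;> omega
  · refine ⟨?_, ?_, fun _ => ?_⟩
    · simp only [nb0, V, jc]; simp; omega
    · simp only [nb1, V, jc]; simp; omega
    · simp only [nb2, V, jc]; split_ifs <;> simp <;> omega
  · refine ⟨?_, ?_, fun _ => ?_⟩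
    · rcases hκ with rfl | rfl | rfl <;> interval_cases j <;> simp [nb0, V, T0, hv, hu]
    · rcases hκ with rfl | rfl | rfl <;> interval_cases j <;> simp [nb1, V, T1, hv, hu]
    · by_cases hf : free n A κ v u = true
      · rcases hκ with rfl | rfl | rfl <;> interval_cases j <;>
          simp [nb2, V, T2, ext, host, hf, hv, hu]
      · rcases hκ with rfl | rfl | rfl <;> interval_cases j <;>
          simp [nb2, V, T2, ext, host, hf, hv, hu]
  · refine ⟨?_, ?_, fun _ => ?_⟩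
    · interval_cases j <;> simp [nb0, V, T0, hv, hu]
    · interval_cases j <;> simp [nb1, V, T1, hv, hu]
    · interval_cases j <;> simp [nb2, V, T2, ext, host, free, hv, hu]

theorem adj_symm (hs : ∀ a b, ent A a b = ent A b a) {x y : E} (h : V n x) (ha : adj n A x y) :
    adj n A y x := by
  rcases V_cases h with ⟨c, v, u, rfl, hc, hv, hu⟩ | ⟨c, v, u, rfl, hc, hv, hu⟩ |
    ⟨κ, j, v, u, rfl, hκ, hj, hv, hu⟩ | ⟨j, v, u, rfl, hj, hv, hu⟩
  · have hc' : c = 0 ∨ c = 1 := by omega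
    rcases ha with rfl | rfl | rfl
    · by_cases h0 : u = 0
      · subst h0
        rcases hc' with rfl | rfl <;> simp [adj, nb0, nb2, ext, host, free, jc]
      · refine Or.inr (Or.inl ?_)
        simp only [nb0, nb1, h0]
        simp
        omega
    · by_cases h0 : u + 1 < n
      · refine Or.inl ?_
        simp [nb0, nb1, h0]
      · rcases hc' with rfl | rfl <;> simp [adj, nb1, nb2, ext, host, free, jc, h0]
    · by_cases h0 : ent A v u = true
      · refine Or.inr (Or.inr ?_)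
        have h1 : ent A u v = true := by rw [hs]; exact h0
        simp [nb2, h0, h1]
      · rcases hc' with rfl | rfl <;> simp [adj, nb2, ext, host, free, jc, h0]
  · have hc' : c = 0 ∨ c = 1 := by omega
    rcases ha with rfl | rfl | rfl
    · refine Or.inr (Or.inl ?_)
      simp [nb0, nb1, hu]
    · refine Or.inl ?_
      simp [nb0, nb1]
    · rcases hc' with rfl | rfl <;> simp [adj, nb2, ext, host, free, jc]
  · rcases ha with rfl | rfl | rfl
    · rcases hκ with rfl | rfl | rfl <;> interval_cases j <;>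
        simp [adj, nb0, nb1, nb2, T0, T1, T2]
    · rcases hκ with rfl | rfl | rfl <;> interval_cases j <;>
        simp [adj, nb0, nb1, nb2, T0, T1, T2]
    · by_cases hf : free n A κ v u = true
      · rcases hκ with rfl | rfl | rfl <;> simp only [free] at hf <;> interval_cases j <;>
          simp_all [adj, nb0, nb1, nb2, T0, T1, T2, ext, host, jc, free]
      · rcases hκ with rfl | rfl | rfl <;> interval_cases j <;>
          simp [adj, nb0, nb1, nb2, T0, T1, T2, ext, host, jc, hf]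
  · rcases ha with rfl | rfl | rfl
    · interval_cases j <;> simp [adj, nb0, nb1, nb2, T0, T1, T2]
    · interval_cases j <;> simp [adj, nb0, nb1, nb2, T0, T1, T2]
    · interval_cases j <;> simp [adj, nb0, nb1, nb2, T0, T1, T2, ext, host, jc, free, hu]

theorem nb_ne (hi : ∀ a, ent A a a = false) {x : E} (h : V n x) : x ≠ nb0 x ∧ x ≠ nb1 n x ∧
    x ≠ nb2 n A x ∧ nb0 x ≠ nb1 n x ∧ nb0 x ≠ nb2 n A x ∧ nb1 n x ≠ nb2 n A x := by
  rcases V_cases h with ⟨c, v, u, rfl, hc, hv, hu⟩ | ⟨c, v, u, rfl, hc, hv, hu⟩ |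
    ⟨κ, j, v, u, rfl, hκ, hj, hv, hu⟩ | ⟨j, v, u, rfl, hj, hv, hu⟩
  · have h2 : (0, c, v, u) ≠ nb2 n A (0, c, v, u) := by
      intro e
      simp only [nb2] at e
      by_cases h0 : ent A v u = true
      · simp only [h0, if_true] at e
        simp only [Prod.mk.injEq, true_and] at e
        rw [e.1, hi] at h0
        exact absurd h0 (by simp)
      · simp [h0] at e
    refine ⟨?_, ?_, h2, ?_, ?_, ?_⟩ <;>
    · simp only [nb0, nb1, nb2]
      simp only [if_true]
      split_ifs <;> simp <;> omega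
  · refine ⟨?_, ?_, ?_, ?_, ?_, ?_⟩ <;> simp [nb0, nb1, nb2]
  · by_cases hf : free n A κ v u = true
    · rcases hκ with rfl | rfl | rfl <;> interval_cases j <;>
        simp [nb0, nb1, nb2, T0, T1, T2, ext, host, hf]
    · rcases hκ with rfl | rfl | rfl <;> interval_cases j <;>
        simp [nb0, nb1, nb2, T0, T1, T2, ext, host, hf]
  · interval_cases j <;> simp [nb0, nb1, nb2, T0, T1, T2, ext, host, free]

end

end Pool.Agent.H801.Em
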