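import Pool.Agent.H801.Em.Bridge

set_option autoImplicit false

/-!
# Correctness of the reduction
-/

namespace Pool.Agent.H801.Em

open Pool.Agent.NPC
open Pool.Agent.H801.Fvs (ent)
open Pool.Agent.H801.Tri (E cube mem_cube cube_nodup)

/-- `g` is a perfect matching of the graph on labels -/
def Mat (n : ℕ) (A : List (List Bool)) (g : E → E) : Prop :=
  ∀ x, V n x → V n (g x) ∧ g (g x) = x ∧ adj n A x (g x)

theorem V0 {n c v u : ℕ} : V n (0, c, v, u) ↔ c < 2 ∧ v < n ∧ u < n := by
  unfold V; simp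

theorem V1 {n c v u : ℕ} : V n (1, c, v, u) ↔ c < 2 ∧ v < n ∧ u + 1 < n := by
  unfold V; simp

theorem count {n : ℕ} {R : List (List Bool)} {f : ℕ → ℕ} {g : E → E} (hf : ∀ v < n, f v < n)
    (h : ∀ v < n, ∀ u < n, (g (0, 0, v, u) = (0, 0, u, v) ↔ u = f v)) :
    ((labs n).toFinset.filter (fun x => red R x (g x))).card =
      ((Finset.range n).filter (fun v => ent R v (f v) = true)).card := by
  classical
  have e : (labs n).toFinset.filter (fun x => red R x (g x)) =
      ((Finset.range n).filter (fun v => ent R v (f v) = true)).image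
        (fun v => ((0, 0, v, f v) : E)) := by
    ext ⟨a, b, c, d⟩
    simp only [Finset.mem_filter, Finset.mem_image, List.mem_toFinset, mem_labs,
      Finset.mem_range, red]
    constructor
    · rintro ⟨hV, h1, h2, h3, h4⟩
      subst h1
      subst h2
      rw [V0] at hV
      have hd := (h c hV.2.1 d hV.2.2).1 h3
      subst hd
      exact ⟨c, ⟨hV.2.1, h4⟩, rfl⟩
    · rintro ⟨v, ⟨hv, hr⟩, he⟩
      simp only [Prod.mk.injEq] at he
      obtain ⟨rfl, rfl, rfl, rfl⟩ := he
      exact ⟨V0.2 ⟨by omega, hv, hf v hv⟩, rfl, rfl, (h v hv _ (hf v hv)).2 rfl, hr⟩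
  rw [e, Finset.card_image_of_injective]
  intro a b hab
  simp only [Prod.mk.injEq, true_and] at hab
  exact hab.1

/-- the matching inside a filling gadget -/
def TG : List ℕ := [1, 0, 3, 2, 5, 4, 8, 9, 6, 7]

/-- The matching of the new graph. -/
def gl (f : ℕ → ℕ) (x : E) : E :=
  if x.1 = 0 then
    (if x.2.2.2 = f x.2.2.1 then (0, x.2.1, x.2.2.2, x.2.2.1)
      else if x.2.2.2 < f x.2.2.1 then (1, x.2.1, x.2.2.1, x.2.2.2)
      else (1, x.2.1, x.2.2.1, x.2.2.2 - 1))
  else if x.1 = 1 then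
    (if x.2.2.2 < f x.2.2.1 then (0, x.2.1, x.2.2.1, x.2.2.2)
      else (0, x.2.1, x.2.2.1, x.2.2.2 + 1))
  else (x.1, TG.getD x.2.1 0, x.2.2.1, x.2.2.2)

theorem fwd {n : ℕ} {A : List (List Bool)} {f : ℕ → ℕ}
    (hf : ∀ v < n, f v < n ∧ f (f v) = v ∧ ent A v (f v) = true) : Mat n A (gl f) := by
  intro x hx
  rcases V_cases hx with ⟨c, v, u, rfl, hc, hv, hu⟩ | ⟨c, v, u, rfl, hc, hv, hu⟩ |
    ⟨κ, j, v, u, rfl, hκ, hj, hv, hu⟩ | ⟨j, v, u, rfl, hj, hv, hu⟩
  · obtain ⟨h1, h2, h3⟩ := hf v hv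
    rcases lt_trichotomy u (f v) with h0 | h0 | h0
    · have e : gl f (0, c, v, u) = (1, c, v, u) := by
        simp [gl, h0, h0.ne]
      rw [e]
      refine ⟨V1.2 ⟨hc, hv, by omega⟩, by simp [gl, h0], Or.inr (Or.inl ?_)⟩
      have : u + 1 < n := by omega
      simp [nb1, this]
    · subst h0
      have e : gl f (0, c, v, f v) = (0, c, f v, v) := by
        simp [gl]
      rw [e]
      refine ⟨V0.2 ⟨hc, hu, hv⟩, by simp [gl, h2], Or.inr (Or.inr ?_)⟩
      simp [nb2, h3]
    · have e : gl f (0, c, v, u) = (1, c, v, u - 1) := by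
        simp only [gl, if_true]
        rw [if_neg (by omega), if_neg (by omega)]
      rw [e]
      refine ⟨V1.2 ⟨hc, hv, by omega⟩, ?_, Or.inl ?_⟩
      · simp only [gl]
        rw [if_neg (by omega), if_pos trivial, if_neg (by omega)]
        simp only [Prod.mk.injEq, true_and]
        omega
      · simp only [nb0, if_true]
        rw [if_neg (by omega)]
  · obtain ⟨h1, h2, h3⟩ := hf v hv
    by_cases h0 : u < f v
    · have e : gl f (1, c, v, u) = (0, c, v, u) := by
        simp [gl, h0]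
      rw [e]
      refine ⟨V0.2 ⟨hc, hv, by omega⟩, by simp [gl, h0, h0.ne], Or.inl ?_⟩
      simp [nb0]
    · have e : gl f (1, c, v, u) = (0, c, v, u + 1) := by
        simp [gl, h0]
      rw [e]
      refine ⟨V0.2 ⟨hc, hv, by omega⟩, ?_, Or.inr (Or.inl ?_)⟩
      · simp only [gl, if_true]
        rw [if_neg (by omega), if_neg (by omega)]
        simp
      · simp [nb1]
  · rcases hκ with rfl | rfl | rfl <;> interval_cases j <;>
      simp [gl, TG, V, hv, hu, adj, nb0, nb1, nb2, T0, T1, T2]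
  · interval_cases j <;> simp [gl, TG, V, hv, hu, adj, nb0, nb1, nb2, T0, T1, T2]

theorem fwd_iff {f : ℕ → ℕ} {v u : ℕ} : gl f (0, 0, v, u) = (0, 0, u, v) ↔ u = f v := by
  constructor
  · intro h
    by_contra hne
    simp only [gl, if_true] at h
    rw [if_neg hne] at h
    split_ifs at h <;> simp at h
  · rintro rfl
    simp [gl]

section

variable {n : ℕ} {A : List (List Bool)} {g : E → E}

theorem gad {κ v u : ℕ} (hM : Mat n A g) (hκ : 2 ≤ κ) (hV : ∀ j < 10, V n (κ, j, v, u)) :
    g (κ, 0, v, u) = (κ, 1, v, u) ∨ g (κ, 0, v, u) = (κ, 2, v, u) := by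
  have hj : ∀ j < 10, j ≠ 0 → j ≠ 4 → (g (κ, j, v, u) = (κ, T0.getD j 0, v, u) ∨
      g (κ, j, v, u) = (κ, T1.getD j 0, v, u) ∨ g (κ, j, v, u) = (κ, T2.getD j 0, v, u)) := by
    intro j h1 h2 h3
    obtain ⟨_, _, h⟩ := hM _ (hV j h1)
    unfold adj nb0 nb1 nb2 at h
    have k0 : κ ≠ 0 := by omega
    have k1 : κ ≠ 1 := by omega
    simpa only [k0, k1, h2, h3, if_false] using h
  obtain ⟨t, ht⟩ : ∃ t : ℕ → ℕ, ∀ j, t j = (g (κ, j, v, u)).2.1 := ⟨_, fun _ => rfl⟩
  have hs : ∀ j < 10, ∀ k < 10, g (κ, j, v, u) = (κ, k, v, u) → g (κ, k, v, u) = (κ, j, v, u) := by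
    intro j h1 k h2 h3
    have := (hM _ (hV j h1)).2.1
    rwa [h3] at this
  have htt : ∀ j < 10, j ≠ 0 → j ≠ 4 → g (κ, j, v, u) = (κ, t j, v, u) := by
    intro j h1 h2 h3
    rcases hj j h1 h2 h3 with h | h | h <;> rw [ht, h]
  have hts : ∀ j < 10, j ≠ 0 → j ≠ 4 → ∀ k < 10, k ≠ 0 → k ≠ 4 → t j = k → t k = j := by
    intro j h1 h2 h3 k h4 h5 h6 h7
    have := hs j h1 k h4 (by rw [htt j h1 h2 h3, h7])
    rw [ht, this]
  have m : ∀ j < 10, j ≠ 0 → j ≠ 4 → (t j = T0.getD j 0 ∨ t j = T1.getD j 0 ∨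
      t j = T2.getD j 0) := by
    intro j h1 h2 h3
    rcases hj j h1 h2 h3 with h | h | h
    · exact Or.inl (by rw [ht, h])
    · exact Or.inr (Or.inl (by rw [ht, h]))
    · exact Or.inr (Or.inr (by rw [ht, h]))
  have m1 : t 1 = 0 ∨ t 1 = 2 ∨ t 1 = 3 := m 1 (by omega) (by omega) (by omega)
  have m2 : t 2 = 0 ∨ t 2 = 1 ∨ t 2 = 3 := m 2 (by omega) (by omega) (by omega)
  have m3 : t 3 = 1 ∨ t 3 = 2 ∨ t 3 = 4 := m 3 (by omega) (by omega) (by omega)
  have m5 : t 5 = 4 ∨ t 5 = 6 ∨ t 5 = 7 := m 5 (by omega) (by omega) (by omega)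
  have m6 : t 6 = 5 ∨ t 6 = 8 ∨ t 6 = 9 := m 6 (by omega) (by omega) (by omega)
  have m7 : t 7 = 5 ∨ t 7 = 8 ∨ t 7 = 9 := m 7 (by omega) (by omega) (by omega)
  have m8 : t 8 = 6 ∨ t 8 = 7 ∨ t 8 = 9 := m 8 (by omega) (by omega) (by omega)
  have m9 : t 9 = 6 ∨ t 9 = 7 ∨ t 9 = 8 := m 9 (by omega) (by omega) (by omega)
  have s56 := hts 5 (by omega) (by omega) (by omega) 6 (by omega) (by omega) (by omega)
  have s57 := hts 5 (by omega) (by omega) (by omega) 7 (by omega) (by omega) (by omega)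
  have s65 := hts 6 (by omega) (by omega) (by omega) 5 (by omega) (by omega) (by omega)
  have s75 := hts 7 (by omega) (by omega) (by omega) 5 (by omega) (by omega) (by omega)
  have s68 := hts 6 (by omega) (by omega) (by omega) 8 (by omega) (by omega) (by omega)
  have s69 := hts 6 (by omega) (by omega) (by omega) 9 (by omega) (by omega) (by omega)
  have s78 := hts 7 (by omega) (by omega) (by omega) 8 (by omega) (by omega) (by omega)
  have s79 := hts 7 (by omega) (by omega) (by omega) 9 (by omega) (by omega) (by omega)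
  have s86 := hts 8 (by omega) (by omega) (by omega) 6 (by omega) (by omega) (by omega)
  have s87 := hts 8 (by omega) (by omega) (by omega) 7 (by omega) (by omega) (by omega)
  have s89 := hts 8 (by omega) (by omega) (by omega) 9 (by omega) (by omega) (by omega)
  have s96 := hts 9 (by omega) (by omega) (by omega) 6 (by omega) (by omega) (by omega)
  have s97 := hts 9 (by omega) (by omega) (by omega) 7 (by omega) (by omega) (by omega)
  have s98 := hts 9 (by omega) (by omega) (by omega) 8 (by omega) (by omega) (by omega)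
  have t5 : t 5 = 4 := by
    clear s89 s98
    rcases m5 with h | h | h
    · exact h
    · exfalso
      have h6 := s56 h
      rcases m7 with h7 | h7 | h7
      · have := s75 h7; omega
      · have := s78 h7
        rcases m9 with h9 | h9 | h9
        · have := s96 h9; omega
        · have := s97 h9; omega
        · have h10 := hts 9 (by omega) (by omega) (by omega) 8 (by omega) (by omega) (by omega) h9
          omega
      · have := s79 h7
        rcases m8 with h9 | h9 | h9
        · have := s86 h9; omega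
        · have := s87 h9; omega
        · have h10 := hts 8 (by omega) (by omega) (by omega) 9 (by omega) (by omega) (by omega) h9
          omega
    · exfalso
      have h6 := s57 h
      rcases m6 with h7 | h7 | h7
      · have := s65 h7; omega
      · have := s68 h7
        rcases m9 with h9 | h9 | h9
        · have := s96 h9; omega
        · have := s97 h9; omega
        · have h10 := hts 9 (by omega) (by omega) (by omega) 8 (by omega) (by omega) (by omega) h9
          omega
      · have := s69 h7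
        rcases m8 with h9 | h9 | h9
        · have := s86 h9; omega
        · have := s87 h9; omega
        · have h10 := hts 8 (by omega) (by omega) (by omega) 9 (by omega) (by omega) (by omega) h9
          omega
  have g5 : g (κ, 5, v, u) = (κ, 4, v, u) := by
    rw [htt 5 (by omega) (by omega) (by omega), t5]
  have g4 := hs 5 (by omega) 4 (by omega) g5
  have t3 : t 3 ≠ 4 := by
    intro h
    have := hs 3 (by omega) 4 (by omega) (by rw [htt 3 (by omega) (by omega) (by omega), h])
    rw [g4] at this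
    simp at this
  by_contra hcon
  rw [not_or] at hcon
  have t1 : t 1 ≠ 0 := by
    intro h
    exact hcon.1 (hs 1 (by omega) 0 (by omega)
      (by rw [htt 1 (by omega) (by omega) (by omega), h]))
  have t2 : t 2 ≠ 0 := by
    intro h
    exact hcon.2 (hs 2 (by omega) 0 (by omega)
      (by rw [htt 2 (by omega) (by omega) (by omega), h]))
  have s12 := hts 1 (by omega) (by omega) (by omega) 2 (by omega) (by omega) (by omega)
  have s13 := hts 1 (by omega) (by omega) (by omega) 3 (by omega) (by omega) (by omega)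
  have s21 := hts 2 (by omega) (by omega) (by omega) 1 (by omega) (by omega) (by omega)
  have s23 := hts 2 (by omega) (by omega) (by omega) 3 (by omega) (by omega) (by omega)
  have s31 := hts 3 (by omega) (by omega) (by omega) 1 (by omega) (by omega) (by omega)
  have s32 := hts 3 (by omega) (by omega) (by omega) 2 (by omega) (by omega) (by omega)
  rcases m3 with h | h | h
  · have := s31 h
    rcases m2 with h' | h' | h'
    · exact t2 h'
    · have := s21 h'; omega
    · have := s23 h'; omega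
  · have := s32 h
    rcases m1 with h' | h' | h'
    · exact t1 h'
    · have := s12 h'; omega
    · have := s13 h'; omega
  · exact t3 h

theorem gad_ne {κ v u : ℕ} (hM : Mat n A g) (hκ : 2 ≤ κ) (hV : ∀ j < 10, V n (κ, j, v, u)) {x : E}
    (hx : x.1 < 2) (hV' : V n x) : g x ≠ (κ, 0, v, u) := by
  intro h
  have h1 := (hM x hV').2.1
  rw [h] at h1
  rcases gad hM hκ hV with h2 | h2
  · rw [h2] at h1
    rw [← h1] at hx
    simp only at hx
    omega
  · rw [h2] at h1
    rw [← h1] at hx
    simp only at hx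
    omega

theorem V2 {κ j v u : ℕ} (hκ : κ = 2 ∨ κ = 3 ∨ κ = 4) (hv : v < n) (hu : u < n) (hj : j < 10) :
    V n (κ, j, v, u) := Or.inr (Or.inr (Or.inl ⟨hκ, hj, hv, hu⟩))

theorem V5 {j v u : ℕ} (hv : v < n) (hu : u + 1 < n) (hj : j < 10) :
    V n (5, j, v, u) := Or.inr (Or.inr (Or.inr ⟨rfl, hj, hv, hu⟩))

theorem gP (hM : Mat n A g) {v u : ℕ} (hv : v < n) (hu : u < n) :
    (∃ i, i + 1 < n ∧ g (0, 0, v, u) = (1, 0, v, i)) ∨
      (g (0, 0, v, u) = (0, 0, u, v) ∧ ent A v u = true) := by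
  have hx : V n (0, 0, v, u) := V0.2 ⟨by omega, hv, hu⟩
  obtain ⟨_, _, h⟩ := hM _ hx
  rcases h with h | h | h
  · simp only [nb0, if_true] at h
    split_ifs at h with h0
    · exact absurd h (gad_ne hM (by omega)
        (fun j hj => V2 (Or.inl rfl) hv hu hj) (by simp) hx)
    · exact Or.inl ⟨u - 1, by omega, h⟩
  · simp only [nb1, if_true] at h
    split_ifs at h with h0
    · exact Or.inl ⟨u, h0, h⟩
    · exact absurd h (gad_ne hM (by omega)
        (fun j hj => V2 (Or.inr (Or.inl rfl)) hv hu hj) (by simp) hx)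
  · simp only [nb2, if_true] at h
    split_ifs at h with h0
    · exact Or.inr ⟨h, h0⟩
    · exact absurd h (gad_ne hM (by omega)
        (fun j hj => V2 (Or.inr (Or.inr rfl)) hv hu hj) (by simp) hx)

theorem gMm (hM : Mat n A g) {v i : ℕ} (hv : v < n) (hi : i + 1 < n) :
    ∃ u < n, g (1, 0, v, i) = (0, 0, v, u) := by
  have hx : V n (1, 0, v, i) := V1.2 ⟨by omega, hv, hi⟩
  obtain ⟨_, _, h⟩ := hM _ hx
  rcases h with h | h | h
  · exact ⟨i, by omega, by simpa [nb0] using h⟩
  · exact ⟨i + 1, hi, by simpa [nb1] using h⟩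
  · exact absurd (by simpa [nb2, jc] using h) (gad_ne hM (by omega)
        (fun j hj => V5 (j := j) hv hi hj) (by simp) hx)

theorem exists_unique_u (hM : Mat n A g) {v : ℕ} (hv : v < n) :
    ∃ u, u < n ∧ ∀ w < n, (g (0, 0, v, w) = (0, 0, w, v) ↔ w = u) := by
  classical
  set S := (Finset.range n).filter (fun u => g (0, 0, v, u) = (0, 0, u, v)) with hS
  have himg : (Finset.range (n - 1)).image (fun i => (g (1, 0, v, i)).2.2.2) =
      (Finset.range n).filter (fun u => ¬ g (0, 0, v, u) = (0, 0, u, v)) := by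
    ext u
    simp only [Finset.mem_image, Finset.mem_range, Finset.mem_filter]
    constructor
    · rintro ⟨i, hi, rfl⟩
      obtain ⟨u, hu, hg⟩ := gMm hM (v := v) (i := i) hv (by omega)
      rw [hg]
      refine ⟨hu, fun h => ?_⟩
      have h1 := (hM _ (V1.2 ⟨by omega, hv, by omega⟩ : V n (1, 0, v, i))).2.1
      rw [hg] at h1
      simp only at h
      rw [h1] at h
      simp at h
    · rintro ⟨hu, hne⟩
      rcases gP hM hv hu with ⟨i, hi, hg⟩ | ⟨hg, _⟩
      · refine ⟨i, by omega, ?_⟩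
        have h1 := (hM _ (V0.2 ⟨by omega, hv, hu⟩ : V n (0, 0, v, u))).2.1
        rw [hg] at h1
        rw [h1]
      · exact absurd hg hne
  have hinj : ((Finset.range (n - 1)).image (fun i => (g (1, 0, v, i)).2.2.2)).card = n - 1 := by
    rw [Finset.card_image_of_injOn, Finset.card_range]
    intro i hi j hj hij
    simp only [Finset.coe_range, Set.mem_Iio] at hi hj
    simp only at hij
    obtain ⟨a, ha, hga⟩ := gMm hM (v := v) (i := i) hv (by omega)
    obtain ⟨b, hb, hgb⟩ := gMm hM (v := v) (i := j) hv (by omega)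
    rw [hga, hgb] at hij
    simp only at hij
    subst hij
    have h1 := (hM _ (V1.2 ⟨by omega, hv, by omega⟩ : V n (1, 0, v, i))).2.1
    have h2 := (hM _ (V1.2 ⟨by omega, hv, by omega⟩ : V n (1, 0, v, j))).2.1
    rw [hga] at h1
    rw [hgb] at h2
    have := h1.symm.trans h2
    simpa using this
  have hsum := Finset.card_filter_add_card_filter_not (s := Finset.range n)
    (fun u => g (0, 0, v, u) = (0, 0, u, v))
  rw [← himg, hinj, Finset.card_range] at hsum
  have hone : S.card = 1 := by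
    rw [hS]
    omega
  obtain ⟨u, hu⟩ := Finset.card_eq_one.1 hone
  have hmem : u ∈ S := by rw [hu]; exact Finset.mem_singleton_self _
  refine ⟨u, Finset.mem_range.1 (Finset.mem_filter.1 hmem).1, fun w hw => ⟨fun h => ?_, ?_⟩⟩
  · have : w ∈ S := Finset.mem_filter.2 ⟨Finset.mem_range.2 hw, h⟩
    rw [hu] at this
    exact Finset.mem_singleton.1 this
  · rintro rfl
    exact (Finset.mem_filter.1 hmem).2

theorem bwd (hM : Mat n A g) : ∃ f : ℕ → ℕ,
    (∀ v < n, f v < n ∧ f (f v) = v ∧ ent A v (f v) = true) ∧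
    (∀ v < n, ∀ u < n, (g (0, 0, v, u) = (0, 0, u, v) ↔ u = f v)) := by
  have : ∀ v, ∃ u, v < n → u < n ∧ ∀ w < n, (g (0, 0, v, w) = (0, 0, w, v) ↔ w = u) := by
    intro v
    by_cases hv : v < n
    · obtain ⟨u, hu⟩ := exists_unique_u hM hv
      exact ⟨u, fun _ => hu⟩
    · exact ⟨0, fun h => absurd h hv⟩
  choose f hf using this
  refine ⟨f, fun v hv => ?_, fun v hv u hu => (hf v hv).2 u hu⟩
  obtain ⟨h1, h2⟩ := hf v hv
  have h3 := (h2 _ h1).2 rfl
  refine ⟨h1, ?_, ?_⟩
  · have h4 := (hM _ (V0.2 ⟨by omega, hv, h1⟩ : V n (0, 0, v, f v))).2.1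
    rw [h3] at h4
    exact (((hf (f v) h1).2 v hv).1 h4).symm
  · rcases gP hM hv h1 with ⟨i, _, hg⟩ | ⟨_, hg⟩
    · rw [h3] at hg
      simp at hg
    · exact hg

end

theorem yes_iff {I : Inst} : Yes (inst I) ↔ Yes I := by
  rw [yes_inst, yes_orig]
  constructor
  · rintro ⟨g, hg, hc⟩
    have hM : Mat I.1.length I.1 g := by
      intro x hx
      obtain ⟨h1, h2, h3⟩ := hg x (List.mem_toFinset.2 (mem_labs.2 hx))
      exact ⟨mem_labs.1 (List.mem_toFinset.1 h1), h2, h3⟩
    obtain ⟨f, hf, hfg⟩ := bwd hM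
    refine ⟨f, fun v hv => ?_, ?_⟩
    · obtain ⟨h1, h2, h3⟩ := hf v (Finset.mem_range.1 hv)
      exact ⟨Finset.mem_range.2 h1, h2, h3⟩
    · rw [← count (fun v hv => (hf v hv).1) hfg]
      exact hc
  · rintro ⟨f, hf, hc⟩
    have hf' : ∀ v < I.1.length, f v < I.1.length ∧ f (f v) = v ∧ ent I.1 v (f v) = true := by
      intro v hv
      obtain ⟨h1, h2, h3⟩ := hf v (Finset.mem_range.2 hv)
      exact ⟨Finset.mem_range.1 h1, h2, h3⟩
    refine ⟨gl f, fun x hx => ?_, ?_⟩
    · obtain ⟨h1, h2, h3⟩ := fwd hf' x (mem_labs.1 (List.mem_toFinset.1 hx))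
      exact ⟨List.mem_toFinset.2 (mem_labs.2 h1), h2, h3⟩
    · rw [count (fun v hv => (hf' v hv).1) (fun v _ u _ => fwd_iff)]
      exact hc

end Pool.Agent.H801.Em
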