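import Pool.Agent.H801.Em.Main

set_option autoImplicit false

/-!
# The reduction is computed in polynomial time
-/

namespace Pool.Agent.H801.Em

open Pool.Agent.NPC
open Pool.Agent.H801.Fvs (ent)
open Pool.Agent.H801.Tri (E cube mem_cube cube_nodup poly_cube poly_mk4 poly_ent)

section

variable {β : Type} [TEnc β] {n κ c v u : β → ℕ} {A R : β → List (List Bool)} {x y : β → E}

theorem poly_jc (hc : NPC.Poly c) : NPC.Poly (fun b => jc (c b)) := by
  unfold jc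
  exact NPC.Poly.ite (NPC.Poly.decide_eq hc (NPC.Poly.const 0)) (NPC.Poly.const 0)
    (NPC.Poly.const 4)

theorem poly_free (hn : NPC.Poly n) (hA : NPC.Poly A) (hκ : NPC.Poly κ) (hv : NPC.Poly v)
    (hu : NPC.Poly u) : NPC.Poly (fun b => free (n b) (A b) (κ b) (v b) (u b)) := by
  unfold free
  exact NPC.Poly.ite (NPC.Poly.decide_eq hκ (NPC.Poly.const 2))
    (NPC.Poly.decide_eq hu (NPC.Poly.const 0))
    (NPC.Poly.ite (NPC.Poly.decide_eq hκ (NPC.Poly.const 3))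
    (NPC.Poly.not (NPC.Poly.decide_lt (NPC.Poly.add hu (NPC.Poly.const 1)) hn))
    (NPC.Poly.ite (NPC.Poly.decide_eq hκ (NPC.Poly.const 4))
    (NPC.Poly.not (poly_ent hA hv hu)) (NPC.Poly.const true)))

theorem poly_host (hκ : NPC.Poly κ) (hc : NPC.Poly c) (hv : NPC.Poly v)
    (hu : NPC.Poly u) : NPC.Poly (fun b => host (κ b) (c b) (v b) (u b)) := by
  unfold host
  exact NPC.Poly.ite (NPC.Poly.decide_eq hκ (NPC.Poly.const 5))
    (poly_mk4 (NPC.Poly.const 1) hc hv hu) (poly_mk4 (NPC.Poly.const 0) hc hv hu)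

theorem poly_ext (hn : NPC.Poly n) (hA : NPC.Poly A) (hκ : NPC.Poly κ) (hc : NPC.Poly c)
    (hv : NPC.Poly v) (hu : NPC.Poly u) :
    NPC.Poly (fun b => ext (n b) (A b) (κ b) (c b) (v b) (u b)) := by
  unfold ext
  exact NPC.Poly.ite (NPC.Poly.decide_bool (poly_free hn hA hκ hv hu)) (poly_host hκ hc hv hu)
    (poly_mk4 hκ (NPC.Poly.ite (NPC.Poly.decide_eq hc (NPC.Poly.const 0)) (NPC.Poly.const 4)
      (NPC.Poly.const 0)) hv hu)

theorem poly_nb0 (hx : NPC.Poly x) : NPC.Poly (fun b => nb0 (x b)) := by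
  unfold nb0
  exact NPC.Poly.ite (NPC.Poly.decide_eq hx.fst (NPC.Poly.const 0))
    (NPC.Poly.ite (NPC.Poly.decide_eq hx.snd.snd.snd (NPC.Poly.const 0))
      (poly_mk4 (NPC.Poly.const 2) (poly_jc hx.snd.fst) hx.snd.snd.fst hx.snd.snd.snd)
      (poly_mk4 (NPC.Poly.const 1) hx.snd.fst hx.snd.snd.fst
        (NPC.Poly.sub hx.snd.snd.snd (NPC.Poly.const 1))))
    (NPC.Poly.ite (NPC.Poly.decide_eq hx.fst (NPC.Poly.const 1))
      (poly_mk4 (NPC.Poly.const 0) hx.snd.fst hx.snd.snd.fst hx.snd.snd.snd)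
      (poly_mk4 hx.fst (NPC.Poly.getD (NPC.Poly.const T0) hx.snd.fst (NPC.Poly.const 0))
        hx.snd.snd.fst hx.snd.snd.snd))

theorem poly_nb1 (hn : NPC.Poly n) (hx : NPC.Poly x) : NPC.Poly (fun b => nb1 (n b) (x b)) := by
  unfold nb1
  exact NPC.Poly.ite (NPC.Poly.decide_eq hx.fst (NPC.Poly.const 0))
    (NPC.Poly.ite (NPC.Poly.decide_lt (NPC.Poly.add hx.snd.snd.snd (NPC.Poly.const 1)) hn)
      (poly_mk4 (NPC.Poly.const 1) hx.snd.fst hx.snd.snd.fst hx.snd.snd.snd)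
      (poly_mk4 (NPC.Poly.const 3) (poly_jc hx.snd.fst) hx.snd.snd.fst hx.snd.snd.snd))
    (NPC.Poly.ite (NPC.Poly.decide_eq hx.fst (NPC.Poly.const 1))
      (poly_mk4 (NPC.Poly.const 0) hx.snd.fst hx.snd.snd.fst
        (NPC.Poly.add hx.snd.snd.snd (NPC.Poly.const 1)))
      (poly_mk4 hx.fst (NPC.Poly.getD (NPC.Poly.const T1) hx.snd.fst (NPC.Poly.const 0))
        hx.snd.snd.fst hx.snd.snd.snd))

theorem poly_nb2 (hn : NPC.Poly n) (hA : NPC.Poly A) (hx : NPC.Poly x) :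
    NPC.Poly (fun b => nb2 (n b) (A b) (x b)) := by
  unfold nb2
  exact NPC.Poly.ite (NPC.Poly.decide_eq hx.fst (NPC.Poly.const 0))
    (NPC.Poly.ite (NPC.Poly.decide_bool (poly_ent hA hx.snd.snd.fst hx.snd.snd.snd))
      (poly_mk4 (NPC.Poly.const 0) hx.snd.fst hx.snd.snd.snd hx.snd.snd.fst)
      (poly_mk4 (NPC.Poly.const 4) (poly_jc hx.snd.fst) hx.snd.snd.fst hx.snd.snd.snd))
    (NPC.Poly.ite (NPC.Poly.decide_eq hx.fst (NPC.Poly.const 1))
      (poly_mk4 (NPC.Poly.const 5) (poly_jc hx.snd.fst) hx.snd.snd.fst hx.snd.snd.snd)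
      (NPC.Poly.ite (NPC.Poly.decide_eq hx.snd.fst (NPC.Poly.const 0))
        (poly_ext hn hA hx.fst (NPC.Poly.const 0) hx.snd.snd.fst hx.snd.snd.snd)
        (NPC.Poly.ite (NPC.Poly.decide_eq hx.snd.fst (NPC.Poly.const 4))
          (poly_ext hn hA hx.fst (NPC.Poly.const 1) hx.snd.snd.fst hx.snd.snd.snd)
          (poly_mk4 hx.fst (NPC.Poly.getD (NPC.Poly.const T2) hx.snd.fst (NPC.Poly.const 0))
            hx.snd.snd.fst hx.snd.snd.snd))))

theorem poly_adj (hn : NPC.Poly n) (hA : NPC.Poly A) (hx : NPC.Poly x) (hy : NPC.Poly y) :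
    NPC.Poly (fun b => decide (adj (n b) (A b) (x b) (y b))) := by
  unfold adj
  exact NPC.Poly.decide_or (NPC.Poly.decide_eq hy (poly_nb0 hx))
    (NPC.Poly.decide_or (NPC.Poly.decide_eq hy (poly_nb1 hn hx))
      (NPC.Poly.decide_eq hy (poly_nb2 hn hA hx)))

theorem poly_red (hR : NPC.Poly R) (hx : NPC.Poly x) (hy : NPC.Poly y) :
    NPC.Poly (fun b => decide (red (R b) (x b) (y b))) := by
  unfold red
  exact NPC.Poly.decide_and (NPC.Poly.decide_eq hx.fst (NPC.Poly.const 0))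
    (NPC.Poly.decide_and (NPC.Poly.decide_eq hx.snd.fst (NPC.Poly.const 0))
      (NPC.Poly.decide_and (NPC.Poly.decide_eq hy (poly_mk4 (NPC.Poly.const 0)
        (NPC.Poly.const 0) hx.snd.snd.snd hx.snd.snd.fst))
        (NPC.Poly.decide_eq (poly_ent hR hx.snd.snd.fst hx.snd.snd.snd) (NPC.Poly.const true))))

end

theorem upoly_n : UPoly (fun z : Inst => z.1.length) := UPoly.length (NPC.Poly.fst NPC.Poly.id)

theorem upoly_n1 : UPoly (fun z : Inst => z.1.length - 1) :=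
  UPoly.of_le (NPC.Poly.sub upoly_n.toPoly (NPC.Poly.const 1)) upoly_n (fun _ => Nat.sub_le _ _)

theorem poly_labs : NPC.Poly (fun z : Inst => labs z.1.length) := by
  unfold labs
  exact NPC.Poly.append (poly_cube 0 (UPoly.const 2) upoly_n upoly_n)
    (NPC.Poly.append (poly_cube 1 (UPoly.const 2) upoly_n upoly_n1)
    (NPC.Poly.append (poly_cube 2 (UPoly.const 10) upoly_n upoly_n)
    (NPC.Poly.append (poly_cube 3 (UPoly.const 10) upoly_n upoly_n)
    (NPC.Poly.append (poly_cube 4 (UPoly.const 10) upoly_n upoly_n)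
    (poly_cube 5 (UPoly.const 10) upoly_n upoly_n1)))))

theorem poly_inst : NPC.Poly (fun z : Inst => inst z) := by
  unfold inst
  refine NPC.Poly.pair (NPC.Poly.map (F := fun (z : Inst) x => (labs z.1.length).map
    (fun y => decide (adj z.1.length z.1 x y))) poly_labs ?_) (NPC.Poly.pair
      (NPC.Poly.map (F := fun (z : Inst) x => (labs z.1.length).map
    (fun y => decide (red z.2.1 x y))) poly_labs ?_) (NPC.Poly.snd (NPC.Poly.snd NPC.Poly.id)))
  · refine NPC.Poly.map (F := fun (p : Inst × E) y => decide (adj p.1.1.length p.1.1 p.2 y))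
      (poly_labs.comp (NPC.Poly.fst NPC.Poly.id)) ?_
    exact poly_adj (upoly_n.toPoly.comp (NPC.Poly.fst (NPC.Poly.fst NPC.Poly.id)))
      (NPC.Poly.fst (NPC.Poly.fst (NPC.Poly.fst NPC.Poly.id)))
      (NPC.Poly.snd (NPC.Poly.fst NPC.Poly.id)) (NPC.Poly.snd NPC.Poly.id)
  · refine NPC.Poly.map (F := fun (p : Inst × E) y => decide (red p.1.2.1 p.2 y))
      (poly_labs.comp (NPC.Poly.fst NPC.Poly.id)) ?_
    exact poly_red (NPC.Poly.fst (NPC.Poly.snd (NPC.Poly.fst (NPC.Poly.fst NPC.Poly.id))))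
      (NPC.Poly.snd (NPC.Poly.fst NPC.Poly.id)) (NPC.Poly.snd NPC.Poly.id)

theorem exists_red : ∃ F : List Bool → List Bool, PolyTime F ∧
    ∀ I : Inst, F (bits I) = bits (inst I) := by
  refine ⟨fun x => bits (match unbits Inst x with
    | none => (([], [], 0) : Inst)
    | some p => inst p), ?_, fun p => by simp only [unbits_bits]⟩
  refine polyTime_bits ((NPC.Poly.optCases (o := fun x => unbits Inst x)
    (g := fun _ => (([], [], 0) : Inst)) (h := fun _ p => inst p) poly_unbits (NPC.Poly.const _)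
    (poly_inst.comp (NPC.Poly.snd NPC.Poly.id))).congr fun x => ?_)
  cases unbits Inst x <;> rfl

theorem reduction : ∃ F : List Bool → List Bool, PolyTime F ∧
    ∀ I : Inst, WF I → ∃ J : Inst, F (bits I) = bits J ∧ WF J ∧ Cubic J ∧ RedDisjoint J ∧
      J.2.2 = I.2.2 ∧ (Yes J ↔ Yes I) := by
  obtain ⟨F, hF, hF'⟩ := exists_red
  exact ⟨F, hF, fun I hI => ⟨inst I, hF' I, wf_inst hI, cubic hI, red_disjoint, rfl, yes_iff⟩⟩

theorem cubic_as_hard : HasAlg (fun I => Cubic I ∧ RedDisjoint I) ↔ HasAlg (fun _ => True) := by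
  constructor
  · rintro ⟨D, hD, h⟩
    obtain ⟨F, hF, hF'⟩ := reduction
    refine ⟨fun x => D (F x), H642R2.TMSim.polyTime_comp hD hF, fun I hI _ => ?_⟩
    obtain ⟨J, h1, h2, h3, h4, _, h5⟩ := hF' I hI
    show D (F (bits I)) = [true] ↔ Yes I
    rw [h1, h J h2 ⟨h3, h4⟩]
    exact h5
  · rintro ⟨D, hD, h⟩
    exact ⟨D, hD, fun I hI _ => h I hI trivial⟩

end Pool.Agent.H801.Em
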